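import Pool.Agent.Q80.Disc.Exist

/-!
The exponent `p(n, d)` of the discriminant in the contravariant arising from the associated form
equals one for all `n ≥ 2` and `d ≥ 3`.

Idea: over the ring `A` of polynomials in the coefficients of the generic form `F`, let `J` be the
ideal of the partial derivatives of `F` in `A[z_1, ..., z_n]`.  Every polynomial `Δ` in the
coefficients that vanishes at the degenerate forms is an inertia form: `z_l ^ K * Δ ∈ J`.  The
partial derivatives of the generic form and the variables satisfy the regularity needed for
Wiebe's lemma, so that in the degree `n (d - 2)` every inertia form is an `A`-multiple of the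
Hessian modulo `J`.  Applied to `Δ * h` this gives the extension.
-/

namespace Pool.Agent.Results.MP_2a8a61_ag.ExponentOne

open Pool.Agent.Helper56.Disc Pool.Agent.Q80.Disc

/-- For all `n ≥ 2` and `d ≥ 3` the discriminant `Δ` of forms of degree `d` in `n` variables
exists, and for every such `Δ` the least positive exponent `p` for which `Δ ^ p * Φ` extends to a
polynomial map on all forms of degree `d` is one. -/
theorem result : ∀ n d : ℕ, 2 ≤ n → 3 ≤ d →
    (∃ Δ : MvPolynomial (Mon n d) ℂ, IsDiscriminant Δ) ∧
    ∀ Δ : MvPolynomial (Mon n d) ℂ, IsDiscriminant Δ →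
      IsLeast {p : ℕ | 0 < p ∧ PowerExtends Δ p} 1 := by
  intro n d hn hd
  refine ⟨exists_discriminant (by omega) (by omega), fun Δ hΔ => ⟨⟨one_pos, ?_⟩, ?_⟩⟩
  · exact extends_one (by omega) (by omega) Δ (fun c hc => (hΔ.2 c).2 hc)
  · intro p hp
    exact hp.1

end Pool.Agent.Results.MP_2a8a61_ag.ExponentOne
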